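import Mathlib

/-!
# [H96 WP CORE] MP_8923e7_nt, THEOREM W+: the core property

`n = m s` positions in `m` blocks of `s` (block of `c : Fin (m * s)`: `c.divNat`), a residue class `ρ c` prime to `Q` for every
position.  `CoreA e m s K`: at every scale `H0 ≤ H ≤ log X` there is a set `A = {A_0 < A_1 < …}` of positions which meets at least
`(13/50 - e) m` of the blocks such that for at least `c (H / log X)^K X / log X` of the `j` the consecutive primes
`p_j, p_(j+1), …, p_(j+#A-1)` are `≤ X`, at distance `≤ H` from `p_j`, and `p_(j+i) ≡ ρ(A_i) (mod Q)` for all `i < #A`.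
-/

namespace Pool.Agent.H96.WP

open Finset

open Classical in
/-- number of the `j < X` with `p_(j+i) ≤ X`, `p_(j+i) ≤ p_j + H` and `p_(j+i) ≡ ρ(A_i) (mod Q)` for all `i < #A` -/
noncomputable def cntA {n : ℕ} (Q : ℕ) (A : Finset (Fin n)) (ρ : Fin n → ℕ) (H X : ℕ) : ℕ :=
  ((range X).filter (fun j => ∀ i : Fin A.card, Nat.nth Nat.Prime (j + i) ≤ X ∧
    Nat.nth Nat.Prime (j + i) ≤ Nat.nth Nat.Prime j + H ∧
    Nat.nth Nat.Prime (j + i) ≡ ρ (A.orderEmbOfFin rfl i) [MOD Q])).card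

/-- the core property -/
def CoreA (e : ℝ) (m s K : ℕ) : Prop :=
  ∀ Q : ℕ, 0 < Q → ∃ (c : ℝ) (H0 X0 : ℕ), 0 < c ∧
    ∀ ρ : Fin (m * s) → ℕ, (∀ i, Nat.Coprime (ρ i) Q) →
      ∀ X H : ℕ, X0 ≤ X → H0 ≤ H → (H : ℝ) ≤ Real.log X →
        ∃ A : Finset (Fin (m * s)), (13 / 50 - e) * m ≤ ((A.image Fin.divNat).card : ℝ) ∧
          c * ((H : ℝ) / Real.log X) ^ K * (X / Real.log X) ≤ (cntA Q A ρ H X : ℝ)

end Pool.Agent.H96.WP
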