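import Pool.Agent.H96.WP.Fin

/-!
# [H96 WP WORDS] MP_8923e7_nt, THEOREM W+: the core theorem
-/

namespace Pool.Agent.H96.WP

/-- for every number `m` of blocks -/
theorem coreA (e : ℝ) (he : 0 < e) (m : ℕ) (hm : 1 ≤ m) :
    ∃ s K : ℕ, 1 ≤ s ∧ CoreA e m s K :=
  coreA_proof e he m hm

end Pool.Agent.H96.WP
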