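import Mathlib

/-!
# [H96 WP BX] Increasing families of positions in prescribed classes
-/

namespace Pool.Agent.H96.WP

open Finset

open Classical in
/-- increasing families `u : Fin n → [0, L]` with `u i ≡ ρ i (mod R)` -/
noncomputable def BX (R n : ℕ) (ρ : Fin n → ℕ) (L : ℕ) : Finset (Fin n → ℕ) :=
  (Fintype.piFinset (fun _ : Fin n => range (L + 1))).filter
    (fun u => StrictMono u ∧ ∀ i, u i ≡ ρ i [MOD R])

theorem mem_BX {R n : ℕ} {ρ : Fin n → ℕ} {L : ℕ} {u : Fin n → ℕ} :
    u ∈ BX R n ρ L ↔ (∀ i, u i ≤ L) ∧ StrictMono u ∧ ∀ i, u i ≡ ρ i [MOD R] := by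
  classical
  unfold BX
  rw [mem_filter, Fintype.mem_piFinset]
  simp only [mem_range, Nat.lt_succ_iff]

theorem bx_card (R n : ℕ) (hR : 0 < R) (hn : 0 < n) (ρ : Fin n → ℕ) (L : ℕ) (hL : R * n ≤ L) :
    (1 / (2 * (R : ℝ) * n)) ^ n * (L : ℝ) ^ n ≤ ((BX R n ρ L).card : ℝ) := by
  classical
  obtain ⟨q, hq⟩ : ∃ q : ℕ, q = L / (R * n) := ⟨_, rfl⟩
  have hRn : 0 < R * n := Nat.mul_pos hR hn
  have hq1 : 1 ≤ q := by
    rw [hq]
    exact (Nat.le_div_iff_mul_le hRn).2 (by rwa [one_mul])
  have hqL : R * n * q ≤ L := by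
    rw [hq]
    exact Nat.mul_div_le L (R * n)
  have hqU : L < R * n * (q + 1) := by
    rw [hq, mul_comm]
    exact Nat.lt_mul_of_div_lt (Nat.lt_succ_self _) hRn
  -- the family
  have hbd : ∀ (t : Fin n → ℕ) (i : Fin n), t i < q →
      R * (i * q + t i) + ρ i % R < R * ((i + 1) * q) := by
    intro t i ht
    have h1 : ρ i % R < R := Nat.mod_lt _ hR
    calc R * (i * q + t i) + ρ i % R < R * (i * q + t i) + R := by omega
      _ = R * (i * q + t i + 1) := by ring
      _ ≤ R * ((i + 1) * q) := by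
          refine Nat.mul_le_mul_left _ ?_
          have h2 : ((i : ℕ) + 1) * q = i * q + q := by ring
          omega
  have hcard : q ^ n ≤ (BX R n ρ L).card := by
    have h1 : (Fintype.piFinset (fun _ : Fin n => range q)).card = q ^ n := by
      rw [Fintype.card_piFinset]
      simp
    rw [← h1]
    refine card_le_card_of_injOn (fun t i => R * (i * q + t i) + ρ i % R) ?_ ?_
    · intro t ht
      rw [mem_coe, Fintype.mem_piFinset] at ht
      have ht' : ∀ i, t i < q := fun i => mem_range.1 (ht i)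
      rw [mem_coe, mem_BX]
      refine ⟨fun i => ?_, ?_, fun i => ?_⟩
      · refine (hbd t i (ht' i)).le.trans ?_
        calc R * (((i : ℕ) + 1) * q) ≤ R * (n * q) := by
              refine Nat.mul_le_mul_left _ (Nat.mul_le_mul_right _ ?_)
              exact i.2
          _ = R * n * q := by ring
          _ ≤ L := hqL
      · intro i j hij
        have h2 : (i : ℕ) + 1 ≤ j := hij
        calc R * (i * q + t i) + ρ i % R < R * (((i : ℕ) + 1) * q) := hbd t i (ht' i)
          _ ≤ R * (j * q) := Nat.mul_le_mul_left _ (Nat.mul_le_mul_right _ h2)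
          _ ≤ R * (j * q + t j) + ρ j % R := by
              have : R * (j * q) ≤ R * (j * q + t j) := Nat.mul_le_mul_left _ (Nat.le_add_right _ _)
              omega
      · have h2 : R * (i * q + t i) + ρ i % R ≡ 0 + ρ i % R [MOD R] :=
          (Nat.modEq_zero_iff_dvd.2 (dvd_mul_right _ _)).add_right _
        rw [zero_add] at h2
        exact h2.trans (Nat.mod_modEq _ _)
    · intro t ht t' ht' h
      funext i
      have h2 := congrFun h i
      have h3 : R * (i * q + t i) = R * (i * q + t' i) := by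
        have : R * (i * q + t i) + ρ i % R = R * (i * q + t' i) + ρ i % R := h2
        omega
      have h4 := Nat.eq_of_mul_eq_mul_left hR h3
      omega
  have h2 : 1 / (2 * (R : ℝ) * n) * L ≤ q := by
    have h3 : (L : ℝ) ≤ R * n * (q + 1) := by exact_mod_cast hqU.le
    have h4 : (1 : ℝ) ≤ q := by exact_mod_cast hq1
    have h5 : (0 : ℝ) < R * n := by exact_mod_cast hRn
    rw [one_div, inv_mul_le_iff₀ (by positivity)]
    nlinarith
  calc (1 / (2 * (R : ℝ) * n)) ^ n * (L : ℝ) ^ n = (1 / (2 * (R : ℝ) * n) * L) ^ n := by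
        rw [mul_pow]
    _ ≤ (q : ℝ) ^ n := pow_le_pow_left₀ (by positivity) h2 n
    _ ≤ ((BX R n ρ L).card : ℝ) := by exact_mod_cast hcard

end Pool.Agent.H96.WP
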