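import Mathlib

/-!
# [H96 WP CQ] All primes of a window are consecutive primes
-/

namespace Pool.Agent.H96.WP

open Finset

/-- the primes of the window `[N, N + L]` are the `N + u i`, `i ∈ A`: they are consecutive primes -/
theorem consec {n : ℕ} (N L : ℕ) (u : Fin n → ℕ) (hu : StrictMono u) (hL : ∀ i, u i ≤ L)
    (hcl : ∀ y ≤ L, (N + y).Prime → ∃ i, u i = y) (A : Finset (Fin n))
    (hA : ∀ i, i ∈ A ↔ (N + u i).Prime) (hne : 0 < A.card) :
    ∃ j : ℕ, j ≤ N + L ∧ ∀ i : Fin A.card,
      Nat.nth Nat.Prime (j + i) = N + u (A.orderEmbOfFin rfl i) := by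
  classical
  obtain ⟨q, hq⟩ : ∃ q : Fin A.card → ℕ, q = fun i => N + u (A.orderEmbOfFin rfl i) := ⟨_, rfl⟩
  have hqp : ∀ i, (q i).Prime := by
    intro i
    rw [hq]
    exact (hA _).1 (A.orderEmbOfFin_mem rfl i)
  have hstep : ∀ i i' : Fin A.card, (i' : ℕ) = i + 1 →
      Nat.count Nat.Prime (q i') = Nat.count Nat.Prime (q i) + 1 := by
    intro i i' hii
    have hlt : i < i' := by
      rw [Fin.lt_def, hii]
      exact Nat.lt_succ_self _
    have hqlt : q i < q i' := by
      rw [hq]
      have := hu ((A.orderEmbOfFin rfl).strictMono hlt)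
      show N + _ < N + _
      omega
    rw [Nat.count_eq_card_filter_range, Nat.count_eq_card_filter_range]
    have h1 : (range (q i')).filter Nat.Prime = insert (q i) ((range (q i)).filter Nat.Prime) := by
      ext r
      rw [mem_filter, mem_insert, mem_filter, mem_range, mem_range]
      constructor
      · rintro ⟨h2, h3⟩
        rcases lt_trichotomy r (q i) with h4 | h4 | h4
        · exact Or.inr ⟨h4, h3⟩
        · exact Or.inl h4
        · exfalso
          have h4' : N + u (A.orderEmbOfFin rfl i) < r := by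
            have : q i = N + u (A.orderEmbOfFin rfl i) := by rw [hq]
            omega
          have h2' : r < N + u (A.orderEmbOfFin rfl i') := by
            have : q i' = N + u (A.orderEmbOfFin rfl i') := by rw [hq]
            omega
          obtain ⟨y, rfl⟩ : ∃ y, r = N + y := ⟨r - N, by omega⟩
          have h5 := hL (A.orderEmbOfFin rfl i')
          obtain ⟨c, hc⟩ := hcl y (by omega) h3
          have hcA : c ∈ A := (hA c).2 (by rw [hc]; exact h3)
          have h6 : c ∈ Set.range (A.orderEmbOfFin rfl) := by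
            rw [range_orderEmbOfFin]
            exact hcA
          obtain ⟨l, hl⟩ := h6
          have h7 : A.orderEmbOfFin rfl i < A.orderEmbOfFin rfl l := by
            rw [hl, ← hu.lt_iff_lt]
            omega
          have h8 : A.orderEmbOfFin rfl l < A.orderEmbOfFin rfl i' := by
            rw [hl, ← hu.lt_iff_lt]
            omega
          rw [(A.orderEmbOfFin rfl).lt_iff_lt] at h7 h8
          rw [Fin.lt_def] at h7 h8
          omega
      · rintro (rfl | ⟨h2, h3⟩)
        · exact ⟨hqlt, hqp i⟩
        · exact ⟨h2.trans hqlt, h3⟩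
    rw [h1, card_insert_of_notMem (by simp)]
  have hcount : ∀ i : ℕ, ∀ h : i < A.card,
      Nat.count Nat.Prime (q ⟨i, h⟩) = Nat.count Nat.Prime (q ⟨0, hne⟩) + i := by
    intro i
    induction i with
    | zero => intro h; rfl
    | succ i ih =>
      intro h
      rw [hstep ⟨i, by omega⟩ ⟨i + 1, h⟩ rfl, ih]
      rfl
  refine ⟨Nat.count Nat.Prime (q ⟨0, hne⟩), ?_, ?_⟩
  · refine (Nat.count_le Nat.Prime).trans ?_
    rw [hq]
    exact Nat.add_le_add_left (hL _) N
  · intro i
    rw [← hcount i i.2, Nat.nth_count (hqp _)]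
    rw [hq]

end Pool.Agent.H96.WP
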