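import Pool.Agent.H96.WP.Mq
import Pool.Agent.H96.WP.Cq
import Pool.Agent.H96.WP.Core

/-!
# [H96 WP FIN] THEOREM W+: proof of the core theorem
-/

namespace Pool.Agent.H96.WP

open Finset Filter Pool.Agent.H21.MT Pool.Agent.H92.MM Pool.Agent.H61.UN

theorem primorial_dvd_wr (Q w : ℕ) : primorial w ∣ WR Q (primorial w) := by
  unfold primorial
  apply Finset.prod_primes_dvd
  · intro p hp
    exact (mem_filter.1 hp).2.prime
  · intro p hp
    exact wr_dvd (primorial_pos w).ne' (mem_filter.1 hp).2 (dvd_prod_of_mem (fun p : ℕ => p) hp)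

/-- classes prime to the larger modulus -/
theorem exists_class (Q D r : ℕ) (hr : Nat.Coprime r Q) :
    ∃ r' : ℕ, r' ≡ r [MOD Q] ∧ Nat.Coprime r' (WR Q D) := by
  have hcop := pdprod_cop Q D
  have h1 := (Nat.chineseRemainder hcop r 1).2
  refine ⟨(Nat.chineseRemainder hcop r 1 : ℕ), h1.1, ?_⟩
  refine Nat.Coprime.mul_right ?_ ?_
  · have h2 : Nat.gcd r Q = 1 := hr
    have h3 := Nat.ModEq.gcd_eq h1.1
    rw [h2] at h3
    exact h3
  · show Nat.gcd _ _ = 1
    rw [Nat.ModEq.gcd_eq h1.2]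
    exact Nat.gcd_one_left _

theorem cntA_mono {n : ℕ} (Q : ℕ) (A : Finset (Fin n)) (ρ : Fin n → ℕ) {H H' : ℕ} (h : H ≤ H')
    (X : ℕ) : cntA Q A ρ H X ≤ cntA Q A ρ H' X := by
  classical
  unfold cntA
  refine card_le_card fun j hj => ?_
  rw [mem_filter] at hj ⊢
  refine ⟨hj.1, fun i => ?_⟩
  obtain ⟨h1, h2, h3⟩ := hj.2 i
  exact ⟨h1, by omega, h3⟩

open Classical in
/-- from the good `N` to strings of consecutive primes -/
theorem to_cnt (m s Q R : ℕ) (hQR : Q ∣ R) (e : ℝ) (ρ ρ' : Fin (m * s) → ℕ)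
    (hρ : ∀ i, ρ' i ≡ ρ i [MOD Q]) (L X : ℕ) (hpos : 0 < (13 / 50 - 2 * e) * m) (G : Finset ℕ)
    (hGne : G.Nonempty) (hG : ∀ N ∈ G, N + L < X ∧ Gd m s R e ρ' L N) :
    ∃ A : Finset (Fin (m * s)), (13 / 50 - 2 * e) * m ≤ ((A.image Fin.divNat).card : ℝ) ∧
      G.card ≤ 2 ^ (m * s) * ((L + 1) * cntA Q A ρ L X) := by
  have h1 : ∀ N, ∃ (A : Finset (Fin (m * s))) (j : ℕ), N ∈ G →
      (13 / 50 - 2 * e) * m ≤ ((A.image Fin.divNat).card : ℝ) ∧
      N ≤ Nat.nth Nat.Prime j ∧ Nat.nth Nat.Prime j ≤ N + L ∧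
      j ∈ (range X).filter (fun j => ∀ i : Fin A.card, Nat.nth Nat.Prime (j + i) ≤ X ∧
        Nat.nth Nat.Prime (j + i) ≤ Nat.nth Nat.Prime j + L ∧
        Nat.nth Nat.Prime (j + i) ≡ ρ (A.orderEmbOfFin rfl i) [MOD Q]) := by
    intro N
    by_cases hN : N ∈ G
    · obtain ⟨hNX, hRN, u, hu, hpc, hcl⟩ := hG N hN
      obtain ⟨hu1, hu2, hu3⟩ := mem_BX.1 hu
      obtain ⟨A, hA⟩ : ∃ A : Finset (Fin (m * s)), ∀ i, i ∈ A ↔ (N + u i).Prime :=
        ⟨univ.filter (fun i => (N + u i).Prime), fun i => by simp⟩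
      have hblk : pc (fun q : Fin m × Fin s => u (finProdFinEquiv q)) N ≤
          (A.image Fin.divNat).card := by
        unfold pc
        refine card_le_card fun j hj => ?_
        rw [mem_filter] at hj
        obtain ⟨l, hl⟩ := hj.2
        rw [mem_image]
        refine ⟨finProdFinEquiv (j, l), (hA _).2 hl, ?_⟩
        have h2 := finProdFinEquiv.symm_apply_apply (j, l)
        have h3 : (finProdFinEquiv.symm (finProdFinEquiv (j, l))).1 = j := by rw [h2]
        exact h3
      have hblk' : (13 / 50 - 2 * e) * m ≤ ((A.image Fin.divNat).card : ℝ) := by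
        refine hpc.trans ?_
        exact_mod_cast hblk
      have hAne : 0 < A.card := by
        by_contra h0
        have h2 : A = ∅ := card_eq_zero.1 (by omega)
        rw [h2, image_empty, card_empty, Nat.cast_zero] at hblk'
        linarith
      obtain ⟨j, hj0, hj⟩ := consec N L u hu2 hu1 hcl A hA hAne
      have hj1 : Nat.nth Nat.Prime j = N + u (A.orderEmbOfFin rfl ⟨0, hAne⟩) := by
        have := hj ⟨0, hAne⟩
        simpa using this
      have hle : ∀ i, u i ≤ L := hu1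
      refine ⟨A, j, fun _ => ⟨hblk', ?_, ?_, ?_⟩⟩
      · rw [hj1]
        exact Nat.le_add_right _ _
      · rw [hj1]
        exact Nat.add_le_add_left (hle _) _
      · rw [mem_filter, mem_range]
        refine ⟨by omega, fun i => ?_⟩
        rw [hj i]
        have h4 := hle (A.orderEmbOfFin rfl i)
        refine ⟨by omega, ?_, ?_⟩
        · rw [hj1]
          omega
        · have h5 : N ≡ 0 [MOD Q] := Nat.modEq_zero_iff_dvd.2 (hQR.trans hRN)
          have h6 : u (A.orderEmbOfFin rfl i) ≡ ρ (A.orderEmbOfFin rfl i) [MOD Q] :=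
            ((hu3 _).of_dvd hQR).trans (hρ _)
          have h7 := h5.add h6
          rwa [zero_add] at h7
    · exact ⟨∅, 0, fun h => absurd h hN⟩
  choose fA fj hf using h1
  -- pigeonhole over the sets `A`
  obtain ⟨A, hA, hAc⟩ : ∃ A ∈ G.image fA, G.card ≤ 2 ^ (m * s) * (G.filter (fun N => fA N = A)).card := by
    by_contra hcon
    push Not at hcon
    have h2 : G.card = ∑ A ∈ G.image fA, (G.filter (fun N => fA N = A)).card :=
      card_eq_sum_card_fiberwise (fun N hN => mem_coe.2 (mem_image_of_mem fA hN))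
    have h3 : ∑ A ∈ G.image fA, 2 ^ (m * s) * (G.filter (fun N => fA N = A)).card <
        ∑ _A ∈ G.image fA, G.card :=
      sum_lt_sum_of_nonempty (hGne.image _) hcon
    rw [← mul_sum, ← h2, sum_const, smul_eq_mul] at h3
    have h4 : (G.image fA).card ≤ 2 ^ (m * s) := by
      refine (card_le_univ _).trans ?_
      rw [Fintype.card_finset, Fintype.card_fin]
    exact absurd h3 (not_lt.2 (Nat.mul_le_mul_right _ h4))
  obtain ⟨N0, hN0, hN0A⟩ := mem_image.1 hA
  refine ⟨A, by rw [← hN0A]; exact (hf N0 hN0).1, hAc.trans (Nat.mul_le_mul_left _ ?_)⟩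
  -- at most `L + 1` of the `N` have the same `j`
  have h5 : (G.filter (fun N => fA N = A)).card ≤ (range (L + 1) ×ˢ ((range X).filter
      (fun j => ∀ i : Fin A.card, Nat.nth Nat.Prime (j + i) ≤ X ∧
        Nat.nth Nat.Prime (j + i) ≤ Nat.nth Nat.Prime j + L ∧
        Nat.nth Nat.Prime (j + i) ≡ ρ (A.orderEmbOfFin rfl i) [MOD Q]))).card := by
    refine card_le_card_of_injOn (fun N => (Nat.nth Nat.Prime (fj N) - N, fj N)) ?_ ?_
    · intro N hN
      rw [mem_coe, mem_filter] at hN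
      obtain ⟨h6, h7, h8, h9⟩ := hf N hN.1
      rw [hN.2] at h9
      rw [mem_coe, mem_product, mem_range]
      exact ⟨by show _ - _ < _; omega, h9⟩
    · intro N hN N' hN' h
      rw [mem_coe, mem_filter] at hN hN'
      obtain ⟨-, h7, h8, -⟩ := hf N hN.1
      obtain ⟨-, h7', h8', -⟩ := hf N' hN'.1
      simp only [Prod.mk.injEq] at h
      obtain ⟨h9, h10⟩ := h
      rw [h10] at h9 h7 h8
      omega
  refine h5.trans (le_of_eq ?_)
  rw [card_product, card_range]
  rfl

theorem coreA_proof (e : ℝ) (he : 0 < e) (m : ℕ) (hm : 1 ≤ m) :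
    ∃ s K : ℕ, 1 ≤ s ∧ CoreA e m s K := by
  classical
  obtain ⟨e', he'd⟩ : ∃ e' : ℝ, e' = min (e / 2) (1 / 100) := ⟨_, rfl⟩
  have he' : 0 < e' := by rw [he'd]; positivity
  have he'1 : e' ≤ 1 / 100 := by rw [he'd]; exact min_le_right _ _
  have he'2 : 2 * e' ≤ e := by
    have : e' ≤ e / 2 := by rw [he'd]; exact min_le_left _ _
    linarith
  obtain ⟨s, w, hs, hgc⟩ := good_count e' he' he'1 m hm
  refine ⟨s, m * s - 1, hs, ?_⟩
  have hn0 : 0 < m * s := Nat.mul_pos (by omega) (by omega)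
  have hmr : (1 : ℝ) ≤ m := by exact_mod_cast hm
  have hpos : 0 < (13 / 50 - 2 * e') * m := by
    apply mul_pos _ (by linarith)
    linarith
  intro Q hQ
  obtain ⟨R, hRd⟩ : ∃ R, R = WR Q (primorial w) := ⟨_, rfl⟩
  have hR : 0 < R := by rw [hRd]; exact wr_pos hQ _
  have hRw : primorial w ∣ R := by rw [hRd]; exact primorial_dvd_wr Q w
  have hQR : Q ∣ R := by rw [hRd]; exact wr_dvd_R _ _
  obtain ⟨c, T, lam, hc, hT, hlam, hev⟩ := hgc R hR hRw
  have hT0 : 0 < T := by linarith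
  obtain ⟨n, hn⟩ : ∃ n, n = m * s := ⟨_, rfl⟩
  obtain ⟨β, hβ⟩ : ∃ β : ℝ, β = min 1 (lam / 4) := ⟨_, rfl⟩
  have hβ0 : 0 < β := by rw [hβ]; positivity
  have hβ1 : β ≤ 1 := by rw [hβ]; exact min_le_left _ _
  have hβ2 : β ≤ lam / 4 := by rw [hβ]; exact min_le_right _ _
  have hx : Tendsto (fun X : ℕ => (X : ℝ) / (2 * T)) atTop atTop :=
    (tendsto_natCast_atTop_atTop).atTop_div_const (by positivity)
  have hlogX : Tendsto (fun X : ℕ => Real.log (X : ℝ)) atTop atTop :=
    Real.tendsto_log_atTop.comp tendsto_natCast_atTop_atTop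
  have hev1 := hx.eventually hev
  have hev2 := hlogX.eventually_ge_atTop (max (2 * Real.log (2 * T)) (2 / lam * (R * n + 2)))
  have hev3 : ∀ᶠ X : ℕ in atTop, Real.log (X : ℝ) ≤ 1 / 4 * (X : ℝ) := by
    have h1 := (tendsto_natCast_atTop_atTop (R := ℝ)).eventually
      (Real.isLittleO_log_id_atTop.bound (show (0 : ℝ) < 1 / 4 by norm_num))
    filter_upwards [h1, eventually_ge_atTop 1] with X h1 h2
    have h3 : (1 : ℝ) ≤ X := by exact_mod_cast h2
    rw [Real.norm_of_nonneg (Real.log_nonneg h3)] at h1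
    simp only [id] at h1
    rwa [Real.norm_of_nonneg (by linarith)] at h1
  have hev4 := hlogX.eventually_ge_atTop 1
  have hev5 := hx.eventually_gt_atTop 1
  obtain ⟨X0, hX0⟩ := eventually_atTop.1 (hev1.and (hev2.and (hev3.and (hev4.and hev5))))
  refine ⟨c * β ^ (n - 1) / (2 ^ (n + 2) * T), R * n + 1, X0, by positivity, ?_⟩
  intro ρ hρ X H hX hH hHX
  obtain ⟨hE1, hE2, hE3, hE4, hE5⟩ := hX0 X hX
  obtain ⟨x, hxd⟩ : ∃ x : ℝ, x = (X : ℝ) / (2 * T) := ⟨_, rfl⟩
  rw [← hxd] at hE1 hE5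
  have hx1 : 1 < x := hE5
  have hXx : (X : ℝ) = 2 * T * x := by
    rw [hxd]
    field_simp
  have hX1 : (1 : ℝ) < X := by
    rw [hXx]
    nlinarith
  have hlx : 0 < Real.log x := Real.log_pos hx1
  have hlX : Real.log X = Real.log (2 * T) + Real.log x := by
    rw [hXx, Real.log_mul (by positivity) (by positivity)]
  have hlT : 0 ≤ Real.log (2 * T) := Real.log_nonneg (by linarith)
  have hlxX : Real.log x ≤ Real.log X := by linarith
  have hlXx : Real.log X ≤ 2 * Real.log x := by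
    have h1 : 2 * Real.log (2 * T) ≤ Real.log X := (le_max_left _ _).trans hE2
    linarith
  -- the classes
  have hcl : ∀ i, ∃ r' : ℕ, r' ≡ ρ i [MOD Q] ∧ Nat.Coprime r' R := by
    intro i
    rw [hRd]
    exact exists_class Q _ (ρ i) (hρ i)
  choose ρ' hρ'1 hρ'2 using hcl
  -- the scale
  obtain ⟨L, hLd⟩ : ∃ L : ℕ, L = min H ⌊lam / 2 * Real.log X⌋₊ := ⟨_, rfl⟩
  have hfl : (R * n + 1 : ℕ) ≤ ⌊lam / 2 * Real.log X⌋₊ := by
    apply Nat.le_floor
    have h1 : 2 / lam * (R * n + 2) ≤ Real.log X := (le_max_right _ _).trans hE2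
    have h2 : lam / 2 * (2 / lam * (R * n + 2)) ≤ lam / 2 * Real.log X :=
      mul_le_mul_of_nonneg_left h1 (by positivity)
    have h3 : lam / 2 * (2 / lam * ((R : ℝ) * n + 2)) = R * n + 2 := by
      field_simp
    rw [h3] at h2
    push_cast
    linarith
  have hL1 : R * n + 1 ≤ L := by
    rw [hLd]
    exact le_min hH hfl
  have hL1' : 1 ≤ L := by omega
  have hLr : (1 : ℝ) ≤ L := by exact_mod_cast hL1'
  have hLH : L ≤ H := by rw [hLd]; exact min_le_left _ _
  have hL2 : (L : ℝ) ≤ lam / 2 * Real.log X := by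
    have h1 : L ≤ ⌊lam / 2 * Real.log X⌋₊ := by rw [hLd]; exact min_le_right _ _
    exact (Nat.cast_le.2 h1).trans (Nat.floor_le (by positivity))
  have hL3 : (L : ℝ) ≤ lam * Real.log x := by
    have h1 : lam / 2 * Real.log X ≤ lam / 2 * (2 * Real.log x) :=
      mul_le_mul_of_nonneg_left hlXx (by positivity)
    linarith
  have hL4 : β * ((H : ℝ) / Real.log X) ≤ (L : ℝ) / Real.log X := by
    have hl0 : 0 < Real.log X := by linarith
    have hHr : (H : ℝ) / Real.log X ≤ 1 := by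
      rw [div_le_one hl0]
      exact hHX
    have hH0 : 0 ≤ (H : ℝ) / Real.log X := by positivity
    rcases le_total H ⌊lam / 2 * Real.log X⌋₊ with h | h
    · have h1 : L = H := by rw [hLd]; exact min_eq_left h
      rw [h1]
      calc β * ((H : ℝ) / Real.log X) ≤ 1 * ((H : ℝ) / Real.log X) :=
            mul_le_mul_of_nonneg_right hβ1 hH0
        _ = _ := one_mul _
    · have h1 : L = ⌊lam / 2 * Real.log X⌋₊ := by rw [hLd]; exact min_eq_right h
      have h2 : lam / 2 * Real.log X < (L : ℝ) + 1 := by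
        rw [h1]
        exact Nat.lt_floor_add_one _
      have h3 : lam / 4 ≤ (L : ℝ) / Real.log X := by
        rw [le_div_iff₀ hl0]
        linarith
      calc β * ((H : ℝ) / Real.log X) ≤ lam / 4 * 1 :=
            mul_le_mul hβ2 hHr hH0 (by positivity)
        _ ≤ _ := by rw [mul_one]; exact h3
  have hgood := hE1 L (by rw [← hn]; omega) hL3 ρ' hρ'2
  rw [← hn] at hgood
  obtain ⟨G, hG⟩ : ∃ G : Finset ℕ, G = (Tx x).filter (fun N : ℕ => (N : ℝ) ≤ T * x ∧
    Gd m s R e' ρ' L N) := ⟨_, rfl⟩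
  rw [← hG] at hgood
  have hκ0 : 0 < (L : ℝ) / Real.log x := by positivity
  have hGpos : (0 : ℝ) < G.card := lt_of_lt_of_le (by positivity) hgood
  have hGne : G.Nonempty := by
    rw [← card_pos]
    exact_mod_cast hGpos
  have hGm : ∀ N ∈ G, N + L < X ∧ Gd m s R e' ρ' L N := by
    intro N hN
    rw [hG, mem_filter] at hN
    refine ⟨?_, hN.2.2⟩
    have h1 : (N : ℝ) ≤ T * x := hN.2.1
    have h2 : T * x = X / 2 := by rw [hXx]; ring
    have h3 : (L : ℝ) ≤ Real.log X := by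
      have : (L : ℝ) ≤ H := by exact_mod_cast hLH
      linarith
    have h4 : ((N + L : ℕ) : ℝ) < (X : ℝ) := by
      push_cast
      linarith
    exact_mod_cast h4
  obtain ⟨A, hA1, hA2⟩ := to_cnt m s Q R hQR e' ρ ρ' hρ'1 L X hpos G hGne hGm
  refine ⟨A, ?_, ?_⟩
  · refine le_trans ?_ hA1
    apply mul_le_mul_of_nonneg_right _ (by linarith)
    linarith
  · have h1 : (cntA Q A ρ L X : ℝ) ≤ (cntA Q A ρ H X : ℝ) := by
      exact_mod_cast cntA_mono Q A ρ hLH X
    refine le_trans ?_ h1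
    have h2 : (G.card : ℝ) ≤ 2 ^ n * ((L + 1) * (cntA Q A ρ L X : ℝ)) := by
      have h0 : (G.card : ℝ) ≤ 2 ^ (m * s) * ((L + 1) * (cntA Q A ρ L X : ℝ)) := by
        exact_mod_cast hA2
      rw [hn]
      exact h0
    have h3 : (G.card : ℝ) ≤ 2 ^ n * ((2 * L) * (cntA Q A ρ L X : ℝ)) := by
      refine h2.trans ?_
      apply mul_le_mul_of_nonneg_left _ (by positivity)
      apply mul_le_mul_of_nonneg_right _ (Nat.cast_nonneg _)
      linarith
    have hnn : n = (n - 1) + 1 := by omega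
    have h4 : c * x * ((L : ℝ) / Real.log x) ^ n =
        (2 * L) * (c / 2 * ((L : ℝ) / Real.log x) ^ (n - 1) * (x / Real.log x)) := by
      conv_lhs => rw [hnn, pow_succ]
      field_simp
    have h5 : c / 2 * ((L : ℝ) / Real.log x) ^ (n - 1) * (x / Real.log x) ≤
        2 ^ n * (cntA Q A ρ L X : ℝ) := by
      have h6 := hgood.trans h3
      rw [h4] at h6
      have h7 : (2 : ℝ) ^ n * ((2 * L) * (cntA Q A ρ L X : ℝ)) =
          (2 * L) * (2 ^ n * (cntA Q A ρ L X : ℝ)) := by ring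
      rw [h7] at h6
      exact le_of_mul_le_mul_left h6 (by positivity)
    have hl0 : 0 < Real.log X := by linarith
    have h8 : β * ((H : ℝ) / Real.log X) ≤ (L : ℝ) / Real.log x := by
      refine hL4.trans ?_
      exact div_le_div_of_nonneg_left (by positivity) hlx hlxX
    have h9 : (β * ((H : ℝ) / Real.log X)) ^ (n - 1) ≤ ((L : ℝ) / Real.log x) ^ (n - 1) :=
      pow_le_pow_left₀ (by positivity) h8 _
    have h10 : X / Real.log X ≤ 2 * T * (x / Real.log x) := by
      rw [hXx, mul_div_assoc (2 * T) x]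
      apply mul_le_mul_of_nonneg_left _ (by positivity)
      rw [← hXx]
      exact div_le_div_of_nonneg_left (by positivity) hlx hlxX
    have h11 : c / 2 * (β * ((H : ℝ) / Real.log X)) ^ (n - 1) * (X / Real.log X / (2 * T)) ≤
        c / 2 * ((L : ℝ) / Real.log x) ^ (n - 1) * (x / Real.log x) := by
      apply mul_le_mul
      · exact mul_le_mul_of_nonneg_left h9 (by positivity)
      · rw [div_le_iff₀ (by positivity)]
        linarith
      · positivity
      · positivity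
    have h12 := h11.trans h5
    rw [mul_pow] at h12
    have h13 : c * β ^ (n - 1) / (2 ^ (n + 2) * T) * ((H : ℝ) / Real.log X) ^ (m * s - 1) *
        (X / Real.log X) = (c / 2 * (β ^ (n - 1) * ((H : ℝ) / Real.log X) ^ (n - 1)) *
          (X / Real.log X / (2 * T))) / 2 ^ n := by
      rw [← hn, pow_add]
      field_simp
    rw [h13, div_le_iff₀ (by positivity)]
    linarith

end Pool.Agent.H96.WP
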