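import Pool.Agent.H96.WP.Wq
import Pool.Agent.H61.UN.Nb

/-!
# [H96 WP NQ] The normalising factors summed over the good classes `≡ 0 (mod R)` (from `H61/UN/Nb.lean`)
-/

namespace Pool.Agent.H96.WP

open Finset Filter Pool.Agent.H92.MM Pool.Agent.H61.UN

private theorem fac_bd {K p : ℕ} (h : K < p) : 0 < 1 - (K : ℝ) / p ∧ 1 - (K : ℝ) / p ≤ 1 := by
  have hp : (0 : ℝ) < p := by exact_mod_cast (Nat.zero_le K).trans_lt h
  have h1 : (K : ℝ) / p < 1 := by
    rw [div_lt_one hp]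
    exact_mod_cast h
  have h2 : 0 ≤ (K : ℝ) / p := by positivity
  constructor <;> linarith

private theorem lt_of_not_dvd {K w W p : ℕ} (hw : K ≤ w) (hW : primorial w ∣ W) (hp : p.Prime)
    (h : ¬ p ∣ W) : K < p := by
  by_contra hc
  apply h
  refine dvd_trans ?_ hW
  exact (Nat.Prime.dvd_primorial_iff hp).2 (by omega)

theorem nr_sum (ι : Type) [Fintype ι] [DecidableEq ι] [Nonempty ι] (a : ℝ) (ha : 0 < a) (ha1 : a ≤ 1)
    (R w : ℕ) (hR : 0 < R) (hw : Fintype.card ι ≤ w) (hRw : primorial w ∣ R) :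
    ∃ c : ℝ, 0 < c ∧ ∀ A : ℝ, ∀ᶠ x : ℝ in atTop, ∀ D : ℕ, (WR R D : ℝ) ≤ Real.log x ^ A →
      ∀ v : ι → ℕ, (∀ i, Nat.Coprime (v i) R) →
        c * x / Real.log x ^ Fintype.card ι ≤ ∑ _b ∈ GR R D v, nm x a (WR R D) (Fintype.card ι) := by
  classical
  obtain ⟨K, hK⟩ : ∃ K, K = Fintype.card ι := ⟨_, rfl⟩
  have hK1 : 1 ≤ K := by rw [hK]; exact Fintype.card_pos
  have hKr : (1 : ℝ) ≤ K := by exact_mod_cast hK1
  have hRr : (0 : ℝ) < R := by exact_mod_cast hR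
  rw [← hK] at hw
  obtain ⟨c1, hc1, hlb⟩ := prod_lb K
  refine ⟨c1 / (8 * R), by positivity, ?_⟩
  intro A
  have hpow : Tendsto (fun x : ℝ => x ^ a) atTop atTop := tendsto_rpow_atTop ha
  have hlog := Real.tendsto_log_atTop
  have hsm : ∀ᶠ x : ℝ in atTop, Real.log x ^ A < x ^ a := by
    have h1 := (isLittleO_log_rpow_rpow_atTop A ha).bound (show (0 : ℝ) < 1 / 2 by norm_num)
    filter_upwards [h1, eventually_gt_atTop (1 : ℝ)] with x hx hx1
    have hx0 : 0 < x ^ a := Real.rpow_pos_of_pos (by linarith) _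
    have hl : 0 < Real.log x := Real.log_pos hx1
    rw [Real.norm_of_nonneg (Real.rpow_nonneg hl.le _), Real.norm_of_nonneg hx0.le] at hx
    linarith
  filter_upwards [Pool.Agent.H95.L1.mass_ge, eventually_gt_atTop (1 : ℝ),
    hpow.eventually_ge_atTop 3, hlog.eventually_ge_atTop 1, hsm] with x hxm hx1 hx3 hxl hxs
  intro D hWA v hv
  have hx0 : 0 < x := by linarith
  obtain ⟨W, hWd⟩ : ∃ W, W = WR R D := ⟨_, rfl⟩
  rw [← hWd] at hWA
  have hW0 : 0 < W := by rw [hWd]; exact wr_pos hR D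
  have hWr : (0 : ℝ) < W := by exact_mod_cast hW0
  have hm : 0 < mass x := by linarith
  have hWp : primorial w ∣ W := by
    rw [hWd]
    exact hRw.trans (wr_dvd_R R D)
  -- the count of classes
  obtain ⟨W', hW'⟩ : ∃ W', W' = ∏ p ∈ PD R D, p := ⟨_, rfl⟩
  have hadm : Admv v := adm_of v (by rw [← hK]; exact hw) hRw hv
  have hcnt := gc_count v hadm W' (by rw [hW']; exact pdprod_sq R D)
  rw [hW', pdprod_factors] at hcnt
  have hPK : ∀ p ∈ PD R D, K < p := by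
    intro p hp
    exact lt_of_not_dvd hw hRw (pd_prime hp) (mem_PD.1 hp).2
  have hcnt2 : ∏ p ∈ PD R D, ((p : ℝ) - K) ≤ ((GR R D v).card : ℝ) := by
    have h1 : ((GC (∏ p ∈ PD R D, p) v).card : ℝ) ≤ ((GR R D v).card : ℝ) := by
      exact_mod_cast gr_ge hR v hv
    refine le_trans (le_of_eq ?_) (hcnt.trans h1)
    apply prod_congr rfl
    intro p hp
    have h2 := hPK p hp
    rw [if_neg (by omega), ← hK]
  obtain ⟨P2, hP2⟩ : ∃ P2 : Finset ℕ,
    P2 = (range ⌈x ^ a⌉₊).filter (fun p => p.Prime ∧ ¬ p ∣ W) := ⟨_, rfl⟩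
  obtain ⟨P1, hP1⟩ : ∃ P1 : Finset ℕ, P1 = PD R D := ⟨_, rfl⟩
  have hpos : ∀ p ∈ P1, (0 : ℝ) < p := fun p hp => by
    rw [hP1] at hp
    exact_mod_cast (pd_prime hp).pos
  have hWprod : (W : ℝ) = R * ∏ p ∈ P1, (p : ℝ) := by
    rw [hWd, hP1]
    unfold WR
    push_cast
    rfl
  -- the ratio
  have hrat : 1 / R * ∏ p ∈ P1, (1 - (K : ℝ) / p) ≤ ((GR R D v).card : ℝ) / W := by
    have h1 : 1 / R * ∏ p ∈ P1, (1 - (K : ℝ) / p) = (∏ p ∈ P1, ((p : ℝ) - K)) / W := by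
      rw [hWprod, ← div_div, div_eq_mul_inv (∏ p ∈ P1, ((p : ℝ) - K)) (R : ℝ), one_div, mul_comm,
        mul_div_right_comm, ← prod_div_distrib]
      congr 1
      apply prod_congr rfl
      intro p hp
      rw [sub_div, div_self (hpos p hp).ne']
    rw [h1, hP1]
    exact div_le_div_of_nonneg_right hcnt2 hWr.le
  -- the union
  have hdisj : Disjoint P1 P2 := by
    rw [disjoint_left]
    intro p hp hp'
    rw [hP1] at hp
    rw [hP2, mem_filter] at hp'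
    apply hp'.2.2
    rw [hWd]
    exact wr_dvd (mem_PD.1 hp).1.2.2 (pd_prime hp) (mem_PD.1 hp).1.2.1
  have hsub : P1 ∪ P2 ⊆ Pool.Agent.H75.AP.PI (K : ℝ) (x ^ a) := by
    intro p hp
    rw [mem_union] at hp
    unfold Pool.Agent.H75.AP.PI
    rw [mem_filter, mem_range]
    rcases hp with hp | hp
    · rw [hP1] at hp
      have h1 := pd_prime hp
      have h2 : (p : ℝ) ≤ x ^ a := by
        have h3 : p ≤ W := by
          refine Nat.le_of_dvd hW0 ?_
          rw [hWd]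
          exact wr_dvd (mem_PD.1 hp).1.2.2 (pd_prime hp) (mem_PD.1 hp).1.2.1
        have h4 : (p : ℝ) ≤ W := by exact_mod_cast h3
        linarith
      refine ⟨?_, h1, by exact_mod_cast hPK p hp⟩
      have := Nat.le_floor h2
      omega
    · rw [hP2, mem_filter, mem_range] at hp
      have h1 := lt_of_not_dvd hw hWp hp.2.1 hp.2.2
      have h2 : (p : ℝ) < x ^ a := Nat.lt_ceil.1 hp.1
      refine ⟨?_, hp.2.1, by exact_mod_cast h1⟩
      have := Nat.le_floor h2.le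
      omega
  have hPI : ∏ p ∈ Pool.Agent.H75.AP.PI (K : ℝ) (x ^ a), (1 - (K : ℝ) / p) ≤
      (∏ p ∈ P1, (1 - (K : ℝ) / p)) * ∏ p ∈ P2, (1 - (K : ℝ) / p) := by
    rw [← prod_union hdisj]
    have hfb : ∀ p ∈ Pool.Agent.H75.AP.PI (K : ℝ) (x ^ a),
        0 < 1 - (K : ℝ) / p ∧ 1 - (K : ℝ) / p ≤ 1 := by
      intro p hp
      unfold Pool.Agent.H75.AP.PI at hp
      rw [mem_filter] at hp
      exact fac_bd (by exact_mod_cast hp.2.2)
    rw [← prod_sdiff hsub]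
    have h1 : ∏ p ∈ Pool.Agent.H75.AP.PI (K : ℝ) (x ^ a) \ (P1 ∪ P2), (1 - (K : ℝ) / p) ≤ 1 := by
      apply prod_le_one
      · intro p hp
        exact (hfb p (mem_sdiff.1 hp).1).1.le
      · intro p hp
        exact (hfb p (mem_sdiff.1 hp).1).2
    have h2 : 0 ≤ ∏ p ∈ P1 ∪ P2, (1 - (K : ℝ) / p) :=
      prod_nonneg fun p hp => (hfb p (hsub hp)).1.le
    calc _ ≤ 1 * ∏ p ∈ P1 ∪ P2, (1 - (K : ℝ) / p) := mul_le_mul_of_nonneg_right h1 h2
      _ = _ := one_mul _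
  have hlow := hlb (x ^ a) hx3
  have hloga : Real.log (x ^ a) = a * Real.log x := Real.log_rpow hx0 a
  have hla : 0 < Real.log (x ^ a) := Real.log_pos (by linarith)
  have hlow2 : c1 / Real.log x ^ K ≤ c1 / Real.log (x ^ a) ^ K := by
    apply div_le_div_of_nonneg_left hc1.le (pow_pos hla _)
    apply pow_le_pow_left₀ hla.le
    rw [hloga]
    nlinarith
  have hP20 : 0 ≤ ∏ p ∈ P2, (1 - (K : ℝ) / p) := by
    apply prod_nonneg
    intro p hp
    rw [hP2, mem_filter] at hp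
    exact (fac_bd (lt_of_not_dvd hw hWp hp.2.1 hp.2.2)).1.le
  rw [sum_const, nsmul_eq_mul, ← hK, ← hWd]
  unfold nm
  rw [← hP2]
  have e1 : ((GR R D v).card : ℝ) * (mass x / W * ∏ p ∈ P2, (1 - (K : ℝ) / p)) =
      mass x * (((GR R D v).card : ℝ) / W * ∏ p ∈ P2, (1 - (K : ℝ) / p)) := by ring
  rw [e1]
  have e2 : c1 / (8 * R) * x / Real.log x ^ K = x / 8 * (1 / R * (c1 / Real.log x ^ K)) := by
    field_simp
  rw [e2]
  have hlp : 0 < Real.log x ^ K := pow_pos (by linarith) _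
  apply mul_le_mul hxm _ (by positivity) hm.le
  calc 1 / (R : ℝ) * (c1 / Real.log x ^ K) ≤ 1 / R * ((∏ p ∈ P1, (1 - (K : ℝ) / p)) *
        ∏ p ∈ P2, (1 - (K : ℝ) / p)) :=
        mul_le_mul_of_nonneg_left ((hlow2.trans hlow).trans hPI) (by positivity)
    _ = (1 / R * ∏ p ∈ P1, (1 - (K : ℝ) / p)) * ∏ p ∈ P2, (1 - (K : ℝ) / p) := by ring
    _ ≤ _ := mul_le_mul_of_nonneg_right hrat hP20

end Pool.Agent.H96.WP
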