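import Pool.Agent.H61.UN.Wh
import Pool.Agent.H61.UN.Cl

/-!
# [H96 WP WQ] The modulus `WR R D = R · ∏ (primes dividing D, not R)` and the good classes `≡ 0 (mod R)`
-/

namespace Pool.Agent.H96.WP

open Finset Filter Pool.Agent.H61.UN

/-- primes dividing `D` but not `R` -/
def PD (R D : ℕ) : Finset ℕ := D.primeFactors.filter (fun p => ¬ p ∣ R)

/-- the modulus -/
def WR (R D : ℕ) : ℕ := R * ∏ p ∈ PD R D, p

theorem mem_PD {R D p : ℕ} : p ∈ PD R D ↔ (p.Prime ∧ p ∣ D ∧ D ≠ 0) ∧ ¬ p ∣ R := by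
  unfold PD
  rw [mem_filter, Nat.mem_primeFactors]

theorem pd_prime {R D p : ℕ} (h : p ∈ PD R D) : p.Prime := (mem_PD.1 h).1.1

theorem pdprod_pos (R D : ℕ) : 0 < ∏ p ∈ PD R D, p := prod_pos fun _ h => (pd_prime h).pos

theorem pdprod_factors (R D : ℕ) : (∏ p ∈ PD R D, p).primeFactors = PD R D :=
  Nat.primeFactors_prod fun _ h => pd_prime h

theorem pdprod_sq (R D : ℕ) : Squarefree (∏ p ∈ PD R D, p) := by
  have key : ∀ s : Finset ℕ, (∀ p ∈ s, p.Prime) → Squarefree (∏ p ∈ s, p) := by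
    intro s
    induction s using Finset.induction_on with
    | empty => simp
    | insert p s hp ih =>
      intro hs
      rw [prod_insert hp, Nat.squarefree_mul_iff]
      have h1 := hs p (mem_insert_self p s)
      refine ⟨?_, h1.squarefree, ih fun q hq => hs q (mem_insert_of_mem hq)⟩
      apply Nat.Coprime.prod_right
      intro q hq
      rw [Nat.coprime_primes h1 (hs q (mem_insert_of_mem hq))]
      rintro rfl
      exact hp hq
  exact key _ fun _ h => pd_prime h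

theorem pdprod_cop (R D : ℕ) : Nat.Coprime R (∏ p ∈ PD R D, p) := by
  apply Nat.Coprime.prod_right
  intro p hp
  rw [Nat.coprime_comm, (pd_prime hp).coprime_iff_not_dvd]
  exact (mem_PD.1 hp).2

theorem wr_pos {R : ℕ} (hR : 0 < R) (D : ℕ) : 0 < WR R D := Nat.mul_pos hR (pdprod_pos R D)

theorem wr_dvd_R (R D : ℕ) : R ∣ WR R D := dvd_mul_right _ _

theorem wr_dvd {R D p : ℕ} (hD : D ≠ 0) (hp : p.Prime) (h : p ∣ D) : p ∣ WR R D := by
  by_cases hR : p ∣ R
  · exact hR.trans (wr_dvd_R R D)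
  · exact (dvd_prod_of_mem (fun p : ℕ => p) (mem_PD.2 ⟨⟨hp, h, hD⟩, hR⟩)).trans
      (dvd_mul_left _ _)

theorem wr_le {R D : ℕ} (hD : D ≠ 0) : WR R D ≤ R * D := by
  refine Nat.mul_le_mul_left _ ?_
  have h1 : ∏ p ∈ PD R D, p ∣ ∏ p ∈ D.primeFactors, p :=
    prod_dvd_prod_of_subset _ _ _ (filter_subset _ _)
  exact Nat.le_of_dvd (Nat.pos_of_ne_zero hD) (h1.trans (Nat.prod_primeFactors_dvd D))

/-- a prime larger than the number of shifts has a good class -/
theorem adm_big {ι : Type} [Fintype ι] (v : ι → ℕ) {p : ℕ}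
    (h : Fintype.card ι < p) : ∃ r : ℕ, ∀ i, ¬ p ∣ r + v i := by
  classical
  by_contra hcon
  push Not at hcon
  choose f hf using hcon
  have h1 : (range p).card ≤ (univ : Finset ι).card := by
    refine card_le_card_of_injOn f (fun _ _ => mem_coe.2 (mem_univ _)) ?_
    intro r hr r' hr' hrr
    rw [mem_coe, mem_range] at hr hr'
    have h2 := hf r
    have h3 := hf r'
    rw [← hrr] at h3
    have h4 : r + v (f r) ≡ r' + v (f r) [MOD p] :=
      (Nat.modEq_zero_iff_dvd.2 h2).trans (Nat.modEq_zero_iff_dvd.2 h3).symm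
    exact Nat.ModEq.eq_of_lt_of_lt (Nat.ModEq.add_right_cancel' _ h4) hr hr'
  rw [card_range, card_univ] at h1
  omega

theorem adm_of {ι : Type} [Fintype ι] (v : ι → ℕ) {R w : ℕ} (hw : Fintype.card ι ≤ w)
    (hR : primorial w ∣ R) (hv : ∀ i, Nat.Coprime (v i) R) : Admv v := by
  intro p hp
  rcases Nat.lt_or_ge w p with h | h
  · exact adm_big v (by omega)
  · refine ⟨0, fun i hd => ?_⟩
    rw [zero_add] at hd
    have h1 : p ∣ R := (hp.dvd_primorial_iff.2 h).trans hR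
    have h2 := Nat.dvd_gcd hd h1
    rw [(hv i : Nat.gcd (v i) R = 1)] at h2
    exact hp.one_lt.ne' (Nat.dvd_one.1 h2)

open Classical in
/-- good classes `≡ 0 (mod R)` -/
noncomputable def GR {ι : Type} (R D : ℕ) (v : ι → ℕ) : Finset ℕ :=
  (range (WR R D)).filter (fun b => R ∣ b ∧ ∀ i, Nat.Coprime (b + v i) (WR R D))

theorem mem_GR {ι : Type} {R D b : ℕ} {v : ι → ℕ} :
    b ∈ GR R D v ↔ b < WR R D ∧ R ∣ b ∧ ∀ i, Nat.Coprime (b + v i) (WR R D) := by
  classical
  unfold GR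
  rw [mem_filter, mem_range]

private theorem cop_congr {a b m : ℕ} (h : a ≡ b [MOD m]) (hb : Nat.Coprime b m) :
    Nat.Coprime a m := by
  unfold Nat.Coprime at hb ⊢
  rw [← hb]
  exact Nat.ModEq.gcd_eq h

theorem gr_ge {ι : Type} [Fintype ι] {R D : ℕ} (hR : 0 < R) (v : ι → ℕ)
    (hv : ∀ i, Nat.Coprime (v i) R) : (GC (∏ p ∈ PD R D, p) v).card ≤ (GR R D v).card := by
  have hcop := pdprod_cop R D
  have hP := pdprod_pos R D
  refine card_le_card_of_injOn (fun b => (Nat.chineseRemainder hcop 0 b : ℕ)) ?_ ?_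
  · intro b hb
    rw [mem_coe, mem_GC] at hb
    rw [mem_coe, mem_GR]
    have h1 := (Nat.chineseRemainder hcop 0 b).2
    refine ⟨Nat.chineseRemainder_lt_mul hcop 0 b hR.ne' hP.ne', Nat.modEq_zero_iff_dvd.1 h1.1,
      fun i => ?_⟩
    refine Nat.Coprime.mul_right ?_ ?_
    · refine cop_congr ?_ (hv i)
      have h2 := h1.1.add_right (v i)
      rwa [zero_add] at h2
    · exact cop_congr (h1.2.add_right (v i)) (hb.2 i)
  · intro b hb b' hb' h
    rw [mem_coe, mem_GC] at hb hb'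
    have h1 := (Nat.chineseRemainder hcop 0 b).2.2
    have h2 := (Nat.chineseRemainder hcop 0 b').2.2
    have h3 : (Nat.chineseRemainder hcop 0 b : ℕ) = (Nat.chineseRemainder hcop 0 b' : ℕ) := h
    rw [h3] at h1
    exact Nat.ModEq.eq_of_lt_of_lt (h1.symm.trans h2) hb.1 hb'.1

end Pool.Agent.H96.WP
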